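import Pool.Agent.Lib.MP_af4c59_nt.H32Main
import Pool.Agent.Lib.MP_af4c59_nt.H32Low

set_option autoImplicit false

namespace Pool.Agent.Results.MP_af4c59_nt.AlternatingFour

/-- The weak form of Malle's conjecture over the rationals for the alternating group on four
points. -/
theorem result :
    IsLeast {k : ℕ | ∃ g ∈ alternatingGroup (Fin 4), g ≠ 1 ∧
      k = g.cycleType.sum - Multiset.card g.cycleType} 2 ∧
    ∀ N : ℝ → ℝ,
      (∀ X : ℝ, N X = ((Set.ncard {L : IntermediateField ℚ (AlgebraicClosure ℚ) |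
          Module.finrank ℚ L = 4 ∧
          (∃ e : (↥L →ₐ[ℚ] AlgebraicClosure ℚ) ≃ Fin 4,
            ∀ τ : Equiv.Perm (Fin 4), τ ∈ alternatingGroup (Fin 4) ↔
              ∃ σ : AlgebraicClosure ℚ ≃ₐ[ℚ] AlgebraicClosure ℚ,
                ∀ φ : ↥L →ₐ[ℚ] AlgebraicClosure ℚ, τ (e φ) = e (σ.toAlgHom.comp φ)) ∧
          ∃ b : Module.Basis (Fin 4) ℤ (NumberField.RingOfIntegers ↥L),
            (((|Algebra.discr ℤ ⇑b| : ℤ)) : ℝ) ≤ X} : ℕ) : ℝ)) →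
      (∃ c₁ : ℝ, 0 < c₁ ∧ ∃ X₀ : ℝ, ∀ X : ℝ, X₀ ≤ X → c₁ * X ^ ((1 : ℝ) / 2) ≤ N X) ∧
      (∀ ε : ℝ, 0 < ε → ∃ c₂ : ℝ, 0 < c₂ ∧ ∃ X₀ : ℝ, ∀ X : ℝ, X₀ ≤ X →
        N X < c₂ * X ^ ((1 : ℝ) / 2 + ε)) := by
  refine ⟨?_, fun N hN => ⟨?_, fun ε hε => ?_⟩⟩
  · constructor
    · refine ⟨Equiv.swap 0 1 * Equiv.swap 2 3, ?_, by decide, ?_⟩
      · rw [Equiv.Perm.mem_alternatingGroup]; decide
      · decide +kernel
    · rintro k ⟨g, hg, h1, rfl⟩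
      rw [Equiv.Perm.mem_alternatingGroup] at hg
      revert g
      decide +kernel
  · obtain ⟨κ, hκ, X₀, h⟩ := Lib.MP_af4c59_nt.H32.lower_bound
    exact ⟨κ, hκ, X₀, fun X hX => by rw [hN]; exact h X hX⟩
  · obtain ⟨C, hC, h⟩ := Lib.MP_af4c59_nt.H32.upper_bound hε
    refine ⟨C + 1, by linarith, 1, fun X hX => ?_⟩
    have h1 := h X hX
    have h2 : 0 < X ^ ((1 : ℝ) / 2 + ε) := Real.rpow_pos_of_pos (by linarith) _
    rw [hN]
    refine lt_of_le_of_lt h1 ?_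
    nlinarith

end Pool.Agent.Results.MP_af4c59_nt.AlternatingFour
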