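import Pool.Agent.Lib.MP_af4c59_nt.H50Final

/-!
The number of degree `n` extensions of a number field `K` of degree `k` with Galois group inside
`G` and absolute norm of the relative discriminant at most `X` is
`O(X ^ (532 * ⌈log₂ d⌉ * ⌈log₂ (s + 2)⌉ / (s + 1)))`, where `d` colours distinguish the elements
of `G` and `2 ^ 17 * s ^ 2 * k * ⌈log₂ (k |G|)⌉` is at most the least index in `G`.
-/

namespace Pool.Agent.Results.MP_af4c59_nt.DecayingExponent

open NumberField

theorem result :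
    ∀ (K : Type) [Field K] [NumberField K] (n : ℕ) (G : Subgroup (Equiv.Perm (Fin n)))
      (d m s : ℕ), 2 ≤ n → 2 ≤ d →
      (∀ g ∈ G, g ≠ 1 → m ≤ g.cycleType.sum - Multiset.card g.cycleType) →
      ((∃ χ : Fin n → Fin d, ∀ g ∈ G, (∀ i, χ (g i) = χ i) → g = 1) ∨ Nat.card G ≤ d ^ m) →
      2 ^ 17 * s ^ 2 *
        (Module.finrank ℚ K * Nat.clog 2 (Module.finrank ℚ K * Nat.card G)) ≤ m →
      ∃ c : ℝ, ∀ X : ℝ, 1 ≤ X →
      ∀ S : Set (IntermediateField K (AlgebraicClosure K)),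
        S = {L : IntermediateField K (AlgebraicClosure K) | Module.finrank K L = n ∧
          (∃ e : (↥L →ₐ[K] AlgebraicClosure K) ≃ Fin n,
            ∀ σ : AlgebraicClosure K ≃ₐ[K] AlgebraicClosure K, ∃ τ ∈ G,
              ∀ φ : ↥L →ₐ[K] AlgebraicClosure K, τ (e φ) = e (σ.toAlgHom.comp φ)) ∧
          ∃ _ : NumberField L,
            (Ideal.absNorm (differentIdeal (RingOfIntegers K) (RingOfIntegers L)) : ℝ) ≤ X} →
        S.Finite ∧ (S.ncard : ℝ) ≤
          c * X ^ (532 * (Nat.clog 2 d : ℝ) * (Nat.clog 2 (s + 2) : ℝ) / ((s : ℝ) + 1)) :=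
  Pool.Agent.Lib.MP_af4c59_nt.H50.final

end Pool.Agent.Results.MP_af4c59_nt.DecayingExponent
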