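import Pool.Agent.Lib.MP_af4c59_nt.H59Final

set_option autoImplicit false

namespace Pool.Agent.Results.MP_af4c59_nt.SmallHypercentreQuotient

/-- The sharp upper bound of the weak Malle conjecture over the rationals for every transitive
permutation group whose hypercentre has index less than fourteen. -/
theorem result :
    ∀ (n : ℕ) (G : Subgroup (Equiv.Perm (Fin n))),
      2 ≤ n → (∀ i j : Fin n, ∃ g ∈ G, g i = j) →
      (∃ k : ℕ, (Subgroup.upperCentralSeries G k).index < 14) →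
      ∀ m : ℕ,
        IsLeast {k : ℕ | ∃ g ∈ G, g ≠ 1 ∧ k = g.cycleType.sum - Multiset.card g.cycleType} m →
      ∀ S : ℝ → Set (IntermediateField ℚ (AlgebraicClosure ℚ)),
        (∀ X : ℝ, S X = {L : IntermediateField ℚ (AlgebraicClosure ℚ) |
            Module.finrank ℚ L = n ∧
            (∃ e : (↥L →ₐ[ℚ] AlgebraicClosure ℚ) ≃ Fin n,
              ∀ τ : Equiv.Perm (Fin n), τ ∈ G ↔
                ∃ σ : AlgebraicClosure ℚ ≃ₐ[ℚ] AlgebraicClosure ℚ,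
                  ∀ φ : ↥L →ₐ[ℚ] AlgebraicClosure ℚ, τ (e φ) = e (σ.toAlgHom.comp φ)) ∧
            ∃ b : Module.Basis (Fin n) ℤ (NumberField.RingOfIntegers ↥L),
              (((|Algebra.discr ℤ ⇑b| : ℤ)) : ℝ) ≤ X}) →
        (∀ X : ℝ, (S X).Finite) ∧
        ∀ ε : ℝ, 0 < ε → ∃ c₂ : ℝ, 0 < c₂ ∧ ∃ X₀ : ℝ, ∀ X : ℝ, X₀ ≤ X →
          ((Set.ncard (S X) : ℕ) : ℝ) < c₂ * X ^ ((1 : ℝ) / (m : ℝ) + ε) := by
  rintro n G hn - ⟨k, hk⟩ m ⟨⟨g, -, hg, hm⟩, hmin⟩ S hS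
  refine ⟨fun X => ?_, fun ε hε => ?_⟩
  · rw [hS]
    exact Lib.MP_af4c59_nt.FS_finite (by omega) G X
  · have h0 : 0 < m := by
      have h1 := Lib.MP_af4c59_nt.H50.eig_cycles g
      have h2 := Equiv.Perm.card_cycleType_pos.2 hg
      rw [Equiv.Perm.sum_cycleType] at hm
      omega
    obtain ⟨C, hC, h⟩ := Lib.MP_af4c59_nt.H59.upper_bound (by omega)
      (Lib.MP_af4c59_nt.H59.rr_hyper k G hk) h0 (fun g h1 h2 => hmin ⟨g, h1, h2, rfl⟩) hε
    refine ⟨C + 1, by linarith, 1, fun X hX => ?_⟩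
    have h1 := h X hX
    have h2 : 0 < X ^ ((1 : ℝ) / m + ε) := Real.rpow_pos_of_pos (by linarith) _
    rw [hS]
    refine lt_of_le_of_lt h1 ?_
    nlinarith

end Pool.Agent.Results.MP_af4c59_nt.SmallHypercentreQuotient
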